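import Pool.Agent.Q276.HL.Stm
import Pool.Agent.W348.HZ.CCU

/-!
# HL, job CFP: the pairs `(A, B)` from quartic forms whose first coefficient is a nonzero fourth power
-/

set_option autoImplicit false

namespace Pool.Agent.Q204.HL

open Pool.Agent.W348.HZ Pool.Agent.Q276.HL

theorem cfp : StmtCFP := by
  refine ⟨16 * 6001 * 6001 * 6004 * 6016, by norm_num, ?_⟩
  intro R T hR hT hTR
  have hT0 : 0 < T := by linarith
  have hR0 : 0 < R := by linarith
  have hT2 : 0 < T ^ 2 := by positivity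
  have hT4 : 0 < T ^ 4 := by positivity
  set E : ℝ := 8 * R ^ ((1 : ℝ) / 4) / T with hE
  have hE0 : 0 ≤ E := by positivity
  set F : Finset (ℤ × ℤ × ℤ × ℤ × ℤ) := ((bx E).erase 0) ×ˢ (bx (3000 * R / T ^ 2)) ×ˢ
    (bx (3000 * R)) ×ˢ (bx (3000 * (R * T ^ 2))) ×ˢ (bx (3000 * (R * T ^ 4))) with hF
  let f : ℤ × ℤ × ℤ × ℤ × ℤ → ℤ × ℤ := fun v =>
    (-(iI (v.1 ^ 4) v.2.1 v.2.2.1 v.2.2.2.1 v.2.2.2.2) / 4,
      -(iJ (v.1 ^ 4) v.2.1 v.2.2.1 v.2.2.2.1 v.2.2.2.2) / 4)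
  have hsub : (pairs fun a b c d e => Box R T a b c d e ∧ a ≠ 0 ∧ ∃ t : ℤ, t ^ 4 = a) ⊆
      ((F.image f : Finset (ℤ × ℤ)) : Set (ℤ × ℤ)) := by
    rintro ⟨X1, X2⟩ ⟨a, b, c, d, e, ⟨⟨ha, hb, hc, hd, he⟩, ha0, t, ht⟩, hI, hJ⟩
    rw [Finset.mem_coe, Finset.mem_image]
    refine ⟨(t, b, c, d, e), ?_, ?_⟩
    · rw [hF, Finset.mem_product, Finset.mem_product, Finset.mem_product, Finset.mem_product,
        Finset.mem_erase]
      refine ⟨⟨?_, mem_bx ?_⟩, mem_bx ?_, mem_bx hc, mem_bx hd, mem_bx he⟩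
      · rintro rfl
        apply ha0
        rw [← ht]
        norm_num
      · change |(t : ℝ)| ≤ E
        rw [hE, le_div_iff₀ hT0]
        have h1 : (|(t : ℝ)| * T) ^ 4 ≤ (8 * R ^ ((1 : ℝ) / 4)) ^ 4 := by
          have h2 : (R ^ ((1 : ℝ) / 4)) ^ 4 = R := by
            rw [← Real.rpow_natCast, ← Real.rpow_mul hR0.le]
            norm_num
          have h3 : |(t : ℝ)| ^ 4 = |(a : ℝ)| := by
            rw [← abs_pow, ← ht]
            push_cast
            rfl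
          rw [mul_pow, mul_pow, h2, h3]
          linarith
        exact le_of_pow_le_pow_left₀ (by norm_num) (by positivity) h1
      · change |(b : ℝ)| ≤ 3000 * R / T ^ 2
        rw [le_div_iff₀ hT2]
        exact hb
    · change (-(iI (t ^ 4) b c d e) / 4, -(iJ (t ^ 4) b c d e) / 4) = (X1, X2)
      rw [ht, hI, hJ]
      simp
  refine ⟨(Finset.finite_toSet _).subset hsub, ?_⟩
  have h1 := Set.ncard_le_ncard hsub (Finset.finite_toSet _)
  rw [Set.ncard_coe_finset] at h1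
  have h2 : (F.image f).card ≤ F.card := Finset.card_image_le
  have h3 : F.card = ((bx E).erase 0).card * ((bx (3000 * R / T ^ 2)).card *
      ((bx (3000 * R)).card * ((bx (3000 * (R * T ^ 2))).card *
        (bx (3000 * (R * T ^ 4))).card))) := by
    rw [hF, Finset.card_product, Finset.card_product, Finset.card_product, Finset.card_product]
  have h4 : (F.card : ℝ) ≤ (16 * 6001 * 6001 * 6004 * 6016) *
      (R ^ ((1 : ℝ) / 4) * R ^ 4 * T ^ 3) := by
    rw [h3]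
    push_cast
    have c1 : (((bx E).erase 0).card : ℝ) ≤ 16 * (R ^ ((1 : ℝ) / 4) / T) := by
      refine (card_bx_erase hE0).trans (le_of_eq ?_)
      rw [hE]
      ring
    have hTT : T ^ 2 ≤ R := by
      calc T ^ 2 ≤ (R ^ ((21 : ℝ) / 100)) ^ 2 := pow_le_pow_left₀ hT0.le hTR 2
        _ = R ^ ((42 : ℝ) / 100) := by
          rw [← Real.rpow_natCast, ← Real.rpow_mul hR0.le]
          norm_num
        _ ≤ R ^ (1 : ℝ) := Real.rpow_le_rpow_of_exponent_le hR (by norm_num)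
        _ = R := Real.rpow_one R
    have hRT : 1 ≤ R / T ^ 2 := by
      rw [le_div_iff₀ hT2, one_mul]
      exact hTT
    have c2 : ((bx (3000 * R / T ^ 2)).card : ℝ) ≤ 6001 * (R / T ^ 2) := by
      refine (card_bx (by positivity)).trans ?_
      rw [mul_div_assoc]
      linarith
    have c3 : ((bx (3000 * R)).card : ℝ) ≤ 6001 * R := by
      refine (card_bx (by positivity)).trans ?_
      linarith
    have hT24 : 1 / 4 ≤ T ^ 2 := by
      have : (1 / 2 : ℝ) ^ 2 ≤ T ^ 2 := pow_le_pow_left₀ (by norm_num) hT 2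
      norm_num at this
      linarith
    have hT16 : 1 / 16 ≤ T ^ 4 := by
      have : (1 / 2 : ℝ) ^ 4 ≤ T ^ 4 := pow_le_pow_left₀ (by norm_num) hT 4
      norm_num at this
      linarith
    have hRT2 : 1 ≤ 4 * (R * T ^ 2) := by nlinarith
    have c4 : ((bx (3000 * (R * T ^ 2))).card : ℝ) ≤ 6004 * (R * T ^ 2) := by
      refine (card_bx (by positivity)).trans ?_
      linarith
    have hRT4 : 1 ≤ 16 * (R * T ^ 4) := by nlinarith
    have c5 : ((bx (3000 * (R * T ^ 4))).card : ℝ) ≤ 6016 * (R * T ^ 4) := by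
      refine (card_bx (by positivity)).trans ?_
      linarith
    calc (((bx E).erase 0).card : ℝ) * (((bx (3000 * R / T ^ 2)).card : ℝ) *
        (((bx (3000 * R)).card : ℝ) * (((bx (3000 * (R * T ^ 2))).card : ℝ) *
          ((bx (3000 * (R * T ^ 4))).card : ℝ))))
        ≤ 16 * (R ^ ((1 : ℝ) / 4) / T) * (6001 * (R / T ^ 2) * (6001 * R *
          (6004 * (R * T ^ 2) * (6016 * (R * T ^ 4))))) := by gcongr
      _ = (16 * 6001 * 6001 * 6004 * 6016) * (R ^ ((1 : ℝ) / 4) * R ^ 4 * T ^ 3) := by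
          field_simp
          try ring
  have h5 : R ^ ((1 : ℝ) / 4) * R ^ 4 * T ^ 3 ≤ R ^ ((49 : ℝ) / 10) := by
    have h6 : T ^ 3 ≤ R ^ ((63 : ℝ) / 100) := by
      calc T ^ 3 ≤ (R ^ ((21 : ℝ) / 100)) ^ 3 := pow_le_pow_left₀ hT0.le hTR 3
        _ = R ^ ((63 : ℝ) / 100) := by
          rw [← Real.rpow_natCast, ← Real.rpow_mul hR0.le]
          norm_num
    calc R ^ ((1 : ℝ) / 4) * R ^ 4 * T ^ 3 ≤ R ^ ((1 : ℝ) / 4) * R ^ 4 * R ^ ((63 : ℝ) / 100) := by
          gcongr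
      _ = R ^ ((1 : ℝ) / 4 + 4 + 63 / 100) := by
          rw [Real.rpow_add hR0, Real.rpow_add hR0]
          norm_num [Real.rpow_natCast]
      _ ≤ R ^ ((49 : ℝ) / 10) := Real.rpow_le_rpow_of_exponent_le hR (by norm_num)
  calc (((pairs fun a b c d e => Box R T a b c d e ∧ a ≠ 0 ∧ ∃ t : ℤ, t ^ 4 = a).ncard : ℕ) : ℝ)
      ≤ (F.card : ℝ) := by
        exact_mod_cast h1.trans h2
    _ ≤ (16 * 6001 * 6001 * 6004 * 6016) * (R ^ ((1 : ℝ) / 4) * R ^ 4 * T ^ 3) := h4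
    _ ≤ (16 * 6001 * 6001 * 6004 * 6016) * R ^ ((49 : ℝ) / 10) := by gcongr

end Pool.Agent.Q204.HL
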